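import Mathlib

/-!
# First-order set theory with atoms: formulas, the axioms of ZFA

A structure for the language of set theory with atoms is a type `M` with a membership relation and
a unary predicate `Atom`.
-/

set_option autoImplicit false

namespace Pool.Agent.FM

/-- A structure for the language of set theory with atoms. -/
class AtomStr (M : Type*) extends Membership M M where
  /-- `x` is an atom -/
  Atom : M → Prop

export AtomStr (Atom)

/-- First-order formulas in the language with membership, equality and the predicate for atoms.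
Variables are natural numbers (de Bruijn indices: in `all φ` the variable `0` of `φ` is the bound
one). -/
inductive Fml : Type
  | mem (i j : ℕ) : Fml
  | eq (i j : ℕ) : Fml
  | atom (i : ℕ) : Fml
  | bot : Fml
  | imp (φ ψ : Fml) : Fml
  | all (φ : Fml) : Fml

/-- the assignment `a, v 0, v 1, …` -/
def cons {M : Type*} (a : M) (v : ℕ → M) : ℕ → M
  | 0 => a
  | n + 1 => v n

/-- Tarski's truth definition. -/
def Sat {M : Type*} [AtomStr M] : Fml → (ℕ → M) → Prop
  | .mem i j, v => v i ∈ v j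
  | .eq i j, v => v i = v j
  | .atom i, v => Atom (v i)
  | .bot, _ => False
  | .imp φ ψ, v => Sat φ v → Sat ψ v
  | .all φ, v => ∀ a, Sat φ (cons a v)

/-- `x` is a set, i.e. not an atom -/
def IsSet {M : Type*} [AtomStr M] (x : M) : Prop := ¬ Atom x

/-- `M` is a model of ZFA (set theory with atoms, without the axiom of choice). -/
structure ZFA (M : Type*) [AtomStr M] : Prop where
  atoms_empty : ∀ a : M, Atom a → ∀ x : M, x ∉ a
  atoms_set : ∃ z : M, IsSet z ∧ ∀ x, x ∈ z ↔ Atom x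
  extensionality : ∀ x y : M, IsSet x → IsSet y → (∀ z, z ∈ x ↔ z ∈ y) → x = y
  pairing : ∀ x y : M, ∃ z : M, IsSet z ∧ ∀ w, w ∈ z ↔ w = x ∨ w = y
  union : ∀ x : M, ∃ y : M, IsSet y ∧ ∀ z, z ∈ y ↔ ∃ w ∈ x, z ∈ w
  powerset : ∀ x : M, ∃ y : M, IsSet y ∧ ∀ z, z ∈ y ↔ IsSet z ∧ ∀ w ∈ z, w ∈ x
  infinity : ∃ x : M, (∃ y ∈ x, IsSet y ∧ ∀ z, z ∉ y) ∧
    ∀ y ∈ x, ∃ z ∈ x, IsSet z ∧ ∀ w, w ∈ z ↔ w ∈ y ∨ w = y
  regularity : ∀ x : M, (∃ y, y ∈ x) → ∃ y ∈ x, ∀ z ∈ x, z ∉ y
  separation : ∀ (φ : Fml) (v : ℕ → M) (x : M),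
    ∃ y : M, IsSet y ∧ ∀ z, z ∈ y ↔ z ∈ x ∧ Sat φ (cons z v)
  replacement : ∀ (φ : Fml) (v : ℕ → M) (x : M),
    (∀ y ∈ x, ∃! z, Sat φ (cons z (cons y v))) →
      ∃ w : M, IsSet w ∧ ∀ z, z ∈ w ↔ ∃ y ∈ x, Sat φ (cons z (cons y v))

end Pool.Agent.FM
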