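import Pool.Agent.Lib_FM.Universe
import Pool.Agent.Lib_FM.ZFA

/-!
# Fraenkel–Mostowski (permutation) models of ZFA
-/

set_option autoImplicit false

namespace Pool.Agent.FM

/-- A group acting on the atoms together with a (basis of a) normal filter of subgroups. -/
structure Sys (Γ A : Type) [Group Γ] [MulAction Γ A] where
  /-- supports -/
  ι : Type
  /-- the subgroup of a support -/
  H : ι → Subgroup Γ
  ne : Nonempty ι
  dir : ∀ s t, ∃ r, H r ≤ H s ∧ H r ≤ H t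
  normal : ∀ (g : Γ) (s : ι), ∃ t, ∀ σ ∈ H t, g⁻¹ * σ * g ∈ H s
  atom : ∀ a : A, ∃ s, ∀ σ ∈ H s, σ • a = a

variable {Γ A : Type} [Group Γ] [MulAction Γ A] (S : Sys Γ A)

/-- `s` supports `x` -/
def Supp (s : S.ι) {X : Type*} [SMul Γ X] (x : X) : Prop := ∀ σ ∈ S.H s, σ • x = x

/-- `x` is symmetric -/
def Sym {X : Type*} [SMul Γ X] (x : X) : Prop := ∃ s, Supp S s x

/-- hereditarily symmetric elements of the universe -/
inductive HS : V A → Prop
  | intro (x : V A) (h : Sym S x) (h' : ∀ y ∈ x, HS y) : HS x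

variable {S}

theorem HS.sym {x : V A} (h : HS S x) : Sym S x := by cases h; assumption

theorem HS.mem {x y : V A} (h : HS S x) (hy : y ∈ x) : HS S y := by
  cases h with
  | intro _ _ h' => exact h' y hy

theorem Sym.smul {x : V A} (h : Sym S x) (g : Γ) : Sym S (g • x) := by
  obtain ⟨s, hs⟩ := h
  obtain ⟨t, ht⟩ := S.normal g s
  refine ⟨t, fun σ hσ => ?_⟩
  have h1 := hs _ (ht σ hσ)
  rw [mul_smul, mul_smul, inv_smul_eq_iff] at h1
  exact h1

theorem HS.smul {x : V A} (h : HS S x) (g : Γ) : HS S (g • x) := by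
  induction h with
  | intro x hx _ ih =>
    refine HS.intro _ (hx.smul g) fun y hy => ?_
    have := ih (g⁻¹ • y) ((V.mem_smul_iff g x y).1 hy)
    rwa [smul_inv_smul] at this

variable (S)

/-- The permutation model. -/
def M : Type 1 := {x : V A // HS S x}

noncomputable instance : MulAction Γ (M S) where
  smul g x := ⟨g • x.1, x.2.smul g⟩
  one_smul _ := Subtype.ext (one_smul _ _)
  mul_smul _ _ _ := Subtype.ext (mul_smul _ _ _)

instance : AtomStr (M S) where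
  mem y x := x.1 ∈ y.1
  Atom x := V.IsAtom x.1

variable {S}

namespace M

theorem mem_def {x y : M S} : x ∈ y ↔ x.1 ∈ y.1 := Iff.rfl

theorem smul_mem_smul_iff (g : Γ) (x y : M S) : g • y ∈ g • x ↔ y ∈ x :=
  V.smul_mem_smul_iff g x.1 y.1

theorem mem_smul_iff (g : Γ) (x y : M S) : y ∈ g • x ↔ g⁻¹ • y ∈ x :=
  V.mem_smul_iff g x.1 y.1

theorem atom_smul_iff (g : Γ) (x : M S) : Atom (g • x) ↔ Atom x := V.isAtom_smul_iff g x.1

theorem isSet_smul_iff (g : Γ) (x : M S) : IsSet (g • x) ↔ IsSet x := not_congr (atom_smul_iff g x)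

theorem ext {x y : M S} (hx : IsSet x) (hy : IsSet y) (h : ∀ z, z ∈ x ↔ z ∈ y) : x = y := by
  refine Subtype.ext (V.ext hx hy fun z => ⟨fun hz => ?_, fun hz => ?_⟩)
  · exact (h ⟨z, x.2.mem hz⟩).1 hz
  · exact (h ⟨z, y.2.mem hz⟩).2 hz

theorem not_mem_atom {x y : M S} (hx : Atom x) : y ∉ x := by
  obtain ⟨a, ha⟩ := hx
  intro h
  rw [mem_def, ha] at h
  exact V.not_mem_atom a _ h

theorem isSet_of_mem {x y : M S} (h : y ∈ x) : IsSet x := fun hx => not_mem_atom hx h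

/-- a class of elements of the model is small if it is covered by a family indexed by a small
type -/
def Small (C : Set (M S)) : Prop := ∃ (κ : Type) (f : κ → M S), ∀ y ∈ C, ∃ k, y = f k

/-- `s` supports the class `C` -/
def SuppC (s : S.ι) (C : Set (M S)) : Prop := ∀ σ ∈ S.H s, ∀ y ∈ C, σ • y ∈ C

theorem SuppC.iff {s : S.ι} {C : Set (M S)} (h : SuppC s C) {σ : Γ} (hσ : σ ∈ S.H s) (y : M S) :
    σ • y ∈ C ↔ y ∈ C := by
  refine ⟨fun hy => ?_, h σ hσ y⟩
  have := h σ⁻¹ ((S.H s).inv_mem hσ) _ hy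
  rwa [inv_smul_smul] at this

theorem _root_.Pool.Agent.FM.Supp.mem_iff {s : S.ι} {x : M S} (h : Supp S s x) {σ : Γ}
    (hσ : σ ∈ S.H s) (y : M S) : σ • y ∈ x ↔ y ∈ x := by
  conv_lhs => rw [← h σ hσ]
  exact smul_mem_smul_iff σ x y

theorem suppC_elems {s : S.ι} {x : M S} (h : Supp S s x) : SuppC s {y | y ∈ x} :=
  fun _ hσ y hy => (h.mem_iff hσ y).2 hy

/-- Comprehension: small symmetric classes are sets. -/
theorem exists_set {C : Set (M S)} (hC : Small C) {s : S.ι} (hs : SuppC s C) :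
    ∃ x : M S, IsSet x ∧ (∀ y, y ∈ x ↔ y ∈ C) ∧ Supp S s x := by
  obtain ⟨κ, f, hf⟩ := hC
  let x : V A := V.mk (ι := {k // f k ∈ C}) (fun k => (f k.1).1)
  have hx : ∀ y : M S, y.1 ∈ x ↔ y ∈ C := by
    intro y
    rw [V.mem_mk]
    constructor
    · rintro ⟨⟨k, hk⟩, h⟩
      have : y = f k := Subtype.ext h
      rw [this]
      exact hk
    · intro h
      obtain ⟨k, rfl⟩ := hf y h
      exact ⟨⟨k, h⟩, rfl⟩
  have hx' : ∀ y ∈ x, HS S y := by
    intro y hy
    rw [V.mem_mk] at hy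
    obtain ⟨k, rfl⟩ := hy
    exact (f k.1).2
  have hsupp : Supp S s x := by
    intro σ hσ
    refine V.ext ?_ (V.not_isAtom_mk _) fun z => ?_
    · rw [V.isAtom_smul_iff]
      exact V.not_isAtom_mk _
    · rw [V.mem_smul_iff]
      constructor
      · intro h
        have h1 := hx' _ h
        have h2 : (⟨σ⁻¹ • z, h1⟩ : M S) ∈ C := (hx ⟨σ⁻¹ • z, h1⟩).1 h
        have h3 := hs σ hσ _ h2
        have h4 := (hx _).2 h3
        change σ • (σ⁻¹ • z) ∈ x at h4
        rwa [smul_inv_smul] at h4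
      · intro h
        have h1 := hx' _ h
        have h2 : (⟨z, h1⟩ : M S) ∈ C := (hx ⟨z, h1⟩).1 h
        have h3 := hs σ⁻¹ ((S.H s).inv_mem hσ) _ h2
        exact (hx _).2 h3
  refine ⟨⟨x, HS.intro _ ⟨s, hsupp⟩ hx'⟩, V.not_isAtom_mk _, hx, ?_⟩
  intro σ hσ
  exact Subtype.ext (hsupp σ hσ)

theorem exists_supp (x : M S) : ∃ s, Supp S s x := by
  obtain ⟨s, hs⟩ := x.2.sym
  exact ⟨s, fun σ hσ => Subtype.ext (hs σ hσ)⟩

theorem _root_.Pool.Agent.FM.Supp.mono {X : Type*} [SMul Γ X] {s t : S.ι} {x : X}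
    (h : Supp S s x) (hst : S.H t ≤ S.H s) : Supp S t x := fun σ hσ => h σ (hst hσ)

theorem exists_supp₂ (x y : M S) : ∃ s, Supp S s x ∧ Supp S s y := by
  obtain ⟨s, hs⟩ := exists_supp x
  obtain ⟨t, ht⟩ := exists_supp y
  obtain ⟨r, h1, h2⟩ := S.dir s t
  exact ⟨r, hs.mono h1, ht.mono h2⟩

theorem exists_supp_list (v : ℕ → M S) (n : ℕ) : ∃ s, ∀ i < n, Supp S s (v i) := by
  induction n with
  | zero =>
    obtain ⟨s⟩ := S.ne
    exact ⟨s, fun i hi => absurd hi (Nat.not_lt_zero i)⟩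
  | succ n ih =>
    obtain ⟨s, hs⟩ := ih
    obtain ⟨t, ht⟩ := exists_supp (v n)
    obtain ⟨r, h1, h2⟩ := S.dir s t
    refine ⟨r, fun i hi => ?_⟩
    rcases Nat.lt_succ_iff_lt_or_eq.1 hi with h | h
    · exact (hs i h).mono h1
    · rw [h]; exact ht.mono h2

theorem small_elems (x : M S) : Small {y | y ∈ x} := by
  obtain ⟨ι, f, hf⟩ := V.exists_small x.1
  refine ⟨{i // f i ∈ x.1}, fun i => ⟨f i.1, x.2.mem i.2⟩, fun y hy => ?_⟩
  obtain ⟨i, hi⟩ := (hf y.1).1 hy
  exact ⟨⟨i, hi ▸ hy⟩, Subtype.ext hi⟩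

theorem Small.mono {C D : Set (M S)} (h : Small D) (hCD : C ⊆ D) : Small C := by
  obtain ⟨κ, f, hf⟩ := h
  exact ⟨κ, f, fun y hy => hf y (hCD hy)⟩

theorem small_range {κ : Type} (f : κ → M S) : Small (Set.range f) :=
  ⟨κ, f, fun _ ⟨k, hk⟩ => ⟨k, hk.symm⟩⟩

theorem Small.union {C D : Set (M S)} (hC : Small C) (hD : Small D) : Small (C ∪ D) := by
  obtain ⟨κ, f, hf⟩ := hC
  obtain ⟨μ, g, hg⟩ := hD
  refine ⟨κ ⊕ μ, Sum.elim f g, ?_⟩
  rintro y (hy | hy)
  · obtain ⟨k, hk⟩ := hf y hy; exact ⟨Sum.inl k, hk⟩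
  · obtain ⟨k, hk⟩ := hg y hy; exact ⟨Sum.inr k, hk⟩

theorem small_iUnion {C : Set (M S)} (hC : Small C) (D : M S → Set (M S))
    (hD : ∀ x ∈ C, Small (D x)) : Small {y | ∃ x ∈ C, y ∈ D x} := by
  classical
  obtain ⟨κ, f, hf⟩ := hC
  have h : ∀ k : {k // f k ∈ C}, ∃ (μ : Type) (g : μ → M S), ∀ y ∈ D (f k.1), ∃ m, y = g m :=
    fun k => hD _ k.2
  choose μ g hg using h
  refine ⟨Σ k, μ k, fun p => g p.1 p.2, ?_⟩
  rintro y ⟨x, hx, hy⟩
  obtain ⟨k, rfl⟩ := hf x hx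
  obtain ⟨m, hm⟩ := hg ⟨k, hx⟩ y hy
  exact ⟨⟨⟨k, hx⟩, m⟩, hm⟩

theorem Small.image {C : Set (M S)} (hC : Small C) (F : M S → M S) : Small (F '' C) := by
  obtain ⟨κ, f, hf⟩ := hC
  refine ⟨κ, fun k => F (f k), ?_⟩
  rintro y ⟨x, hx, rfl⟩
  obtain ⟨k, rfl⟩ := hf x hx
  exact ⟨k, rfl⟩

theorem Small.image2 {C D : Set (M S)} (hC : Small C) (hD : Small D) (F : M S → M S → M S) :
    Small {z | ∃ x ∈ C, ∃ y ∈ D, z = F x y} := by
  obtain ⟨κ, f, hf⟩ := hC
  obtain ⟨μ, g, hg⟩ := hD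
  refine ⟨κ × μ, fun k => F (f k.1) (g k.2), ?_⟩
  rintro z ⟨x, hx, y, hy, rfl⟩
  obtain ⟨k, rfl⟩ := hf x hx
  obtain ⟨m, rfl⟩ := hg y hy
  exact ⟨(k, m), rfl⟩

/-- the subsets (in the model) of a small class form a small class -/
theorem Small.powerset {C : Set (M S)} (hC : Small C) :
    Small {x : M S | IsSet x ∧ ∀ y ∈ x, y ∈ C} := by
  classical
  obtain ⟨κ, f, hf⟩ := hC
  let e : M S := (exists_set (S := S) (C := ∅) ⟨Empty, Empty.elim, fun y hy => hy.elim⟩
    (s := S.ne.some) (fun _ _ y hy => hy.elim)).choose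
  refine ⟨Set κ, fun T => if h : ∃ x : M S, IsSet x ∧ ∀ y, y ∈ x ↔ ∃ k ∈ T, y = f k then
    h.choose else e, ?_⟩
  rintro x ⟨hx, hxC⟩
  refine ⟨{k | f k ∈ x}, ?_⟩
  have h : ∃ x' : M S, IsSet x' ∧ ∀ y, y ∈ x' ↔ ∃ k ∈ {k | f k ∈ x}, y = f k := by
    refine ⟨x, hx, fun y => ⟨fun hy => ?_, ?_⟩⟩
    · obtain ⟨k, hk⟩ := hf y (hxC y hy)
      exact ⟨k, by rw [Set.mem_ofPred_eq, ← hk]; exact hy, hk⟩
    · rintro ⟨k, hk, rfl⟩
      exact hk
  change x = dite (∃ x' : M S, IsSet x' ∧ ∀ y, y ∈ x' ↔ ∃ k ∈ {k | f k ∈ x}, y = f k)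
    (fun h => h.choose) (fun _ => e)
  rw [dif_pos h]
  refine ext hx h.choose_spec.1 fun y => ?_
  rw [h.choose_spec.2 y]
  constructor
  · intro hy
    obtain ⟨k, hk⟩ := hf y (hxC y hy)
    exact ⟨k, by rw [Set.mem_ofPred_eq, ← hk]; exact hy, hk⟩
  · rintro ⟨k, hk, rfl⟩
    exact hk

/-- an atom as an element of the model -/
def at' (a : A) : M S :=
  ⟨V.atom a, HS.intro _ (by
    obtain ⟨s, hs⟩ := S.atom a
    exact ⟨s, fun σ hσ => by rw [V.smul_atom, hs σ hσ]⟩)
    (fun y hy => (V.not_mem_atom a y hy).elim)⟩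

theorem smul_at (g : Γ) (a : A) : g • (at' a : M S) = at' (g • a) := rfl

theorem at_inj {a b : A} : (at' a : M S) = at' b ↔ a = b :=
  ⟨fun h => V.atom_inj (congrArg Subtype.val h), fun h => h ▸ rfl⟩

theorem atom_at (a : A) : Atom (at' a : M S) := ⟨a, rfl⟩

theorem atom_iff {x : M S} : Atom x ↔ ∃ a, x = at' a :=
  ⟨fun ⟨a, h⟩ => ⟨a, Subtype.ext h⟩, fun ⟨a, h⟩ => ⟨a, congrArg Subtype.val h⟩⟩

/-- membership induction -/
theorem induction {p : M S → Prop} (h : ∀ x, (∀ y ∈ x, p y) → p x) (x : M S) : p x := by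
  have key : ∀ x : V A, ∀ hx : HS S x, p ⟨x, hx⟩ := by
    intro x
    induction x using V.induction with
    | h x ih =>
      intro hx
      exact h _ fun y hy => ih y.1 hy y.2
  exact key x.1 x.2

/-- the number of variables of a formula -/
def _root_.Pool.Agent.FM.Fml.bd : Fml → ℕ
  | .mem i j => max (i + 1) (j + 1)
  | .eq i j => max (i + 1) (j + 1)
  | .atom i => i + 1
  | .bot => 0
  | .imp φ ψ => max φ.bd ψ.bd
  | .all φ => φ.bd

theorem sat_congr : ∀ (φ : Fml) {v v' : ℕ → M S} (_ : ∀ i < φ.bd, v i = v' i), Sat φ v ↔ Sat φ v'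
  | .mem i j, v, v', h => by
    change v i ∈ v j ↔ v' i ∈ v' j
    rw [h i (lt_of_lt_of_le (Nat.lt_succ_self i) (le_max_left _ _)),
      h j (lt_of_lt_of_le (Nat.lt_succ_self j) (le_max_right _ _))]
  | .eq i j, v, v', h => by
    change v i = v j ↔ v' i = v' j
    rw [h i (lt_of_lt_of_le (Nat.lt_succ_self i) (le_max_left _ _)),
      h j (lt_of_lt_of_le (Nat.lt_succ_self j) (le_max_right _ _))]
  | .atom i, v, v', h => by
    change Atom (v i) ↔ Atom (v' i)
    rw [h i (Nat.lt_succ_self i)]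
  | .bot, _, _, _ => Iff.rfl
  | .imp φ ψ, v, v', h => by
    have h1 := sat_congr φ (v := v) (v' := v') fun i hi => h i (lt_of_lt_of_le hi (le_max_left _ _))
    have h2 := sat_congr ψ (v := v) (v' := v') fun i hi => h i (lt_of_lt_of_le hi (le_max_right _ _))
    change (Sat φ v → Sat ψ v) ↔ (Sat φ v' → Sat ψ v')
    rw [h1, h2]
  | .all φ, v, v', h => by
    change (∀ a, Sat φ (cons a v)) ↔ (∀ a, Sat φ (cons a v'))
    refine forall_congr' fun a => sat_congr φ fun i hi => ?_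
    cases i with
    | zero => rfl
    | succ i => exact h i (lt_trans (Nat.lt_succ_self i) hi)

theorem sat_smul : ∀ (φ : Fml) (g : Γ) (v : ℕ → M S), Sat φ (fun i => g • v i) ↔ Sat φ v
  | .mem i j, g, v => smul_mem_smul_iff g (v j) (v i)
  | .eq i j, g, v => by
    change g • v i = g • v j ↔ v i = v j
    exact smul_left_cancel_iff g
  | .atom i, g, v => atom_smul_iff g (v i)
  | .bot, _, _ => Iff.rfl
  | .imp φ ψ, g, v => by
    change (Sat φ (fun i => g • v i) → Sat ψ (fun i => g • v i)) ↔ (Sat φ v → Sat ψ v)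
    rw [sat_smul φ g v, sat_smul ψ g v]
  | .all φ, g, v => by
    change (∀ a, Sat φ (cons a fun i => g • v i)) ↔ (∀ a, Sat φ (cons a v))
    have key : ∀ a : M S, (cons (g • a) fun i => g • v i) = fun i => g • cons a v i := by
      intro a
      funext i
      cases i <;> rfl
    constructor
    · intro h a
      have := h (g • a)
      rw [key, sat_smul φ g] at this
      exact this
    · intro h a
      have := (sat_smul φ g (cons (g⁻¹ • a) v)).2 (h _)
      rw [← key, smul_inv_smul] at this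
      exact this

theorem sat_supp (φ : Fml) (v : ℕ → M S) :
    ∃ s, ∀ σ ∈ S.H s, ∀ z, Sat φ (cons (σ • z) v) ↔ Sat φ (cons z v) := by
  obtain ⟨s, hs⟩ := exists_supp_list v φ.bd
  refine ⟨s, fun σ hσ z => ?_⟩
  rw [← sat_smul φ σ (cons z v)]
  refine sat_congr φ fun i hi => ?_
  cases i with
  | zero => rfl
  | succ i => exact (hs i (lt_trans (Nat.lt_succ_self i) hi) σ hσ).symm

theorem sat_supp₂ (φ : Fml) (v : ℕ → M S) :
    ∃ s, ∀ σ ∈ S.H s, ∀ z y,
      Sat φ (cons (σ • z) (cons (σ • y) v)) ↔ Sat φ (cons z (cons y v)) := by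
  obtain ⟨s, hs⟩ := exists_supp_list v φ.bd
  refine ⟨s, fun σ hσ z y => ?_⟩
  rw [← sat_smul φ σ (cons z (cons y v))]
  refine sat_congr φ fun i hi => ?_
  cases i with
  | zero => rfl
  | succ i =>
    cases i with
    | zero => rfl
    | succ i =>
      exact (hs i (lt_trans (Nat.lt_succ_self i)
        (lt_trans (Nat.lt_succ_self _) hi)) σ hσ).symm

/-- natural numbers of the model -/
theorem exists_empty : ∃ e : M S, IsSet e ∧ (∀ y, y ∉ e) ∧ ∀ g : Γ, g • e = e := by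
  obtain ⟨e, h1, h2, -⟩ := exists_set (S := S) (C := ∅) ⟨Empty, Empty.elim, fun y hy => hy.elim⟩
    (s := S.ne.some) (fun _ _ y hy => hy.elim)
  have h3 : ∀ y, y ∉ e := fun y hy => (h2 y).1 hy
  refine ⟨e, h1, h3, fun g => ?_⟩
  refine ext ((isSet_smul_iff g e).2 h1) h1 fun z => ?_
  rw [mem_smul_iff]
  exact ⟨fun h => (h3 _ h).elim, fun h => (h3 _ h).elim⟩

theorem exists_succ (y : M S) : ∃ z : M S, IsSet z ∧ ∀ w, w ∈ z ↔ w ∈ y ∨ w = y := by
  obtain ⟨s, hs⟩ := exists_supp y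
  obtain ⟨z, h1, h2, -⟩ := exists_set (S := S) (C := {w | w ∈ y ∨ w = y}) (s := s)
    ((small_elems y).union (small_range (fun _ : Unit => y)) |>.mono (by
      rintro w (h | h)
      · exact Or.inl h
      · exact Or.inr ⟨(), h.symm⟩))
    (by
      rintro σ hσ w (h | h)
      · exact Or.inl ((hs.mem_iff hσ w).2 h)
      · right; rw [h]; exact hs σ hσ)
  exact ⟨z, h1, h2⟩

/-- the numeral `n` in the model -/
noncomputable def num : ℕ → M S
  | 0 => exists_empty.choose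
  | n + 1 => (exists_succ (num n)).choose

theorem isSet_num (n : ℕ) : IsSet (num n : M S) := by
  cases n with
  | zero => exact exists_empty.choose_spec.1
  | succ n => exact (exists_succ (num n)).choose_spec.1

theorem not_mem_num_zero (y : M S) : y ∉ (num 0 : M S) := exists_empty.choose_spec.2.1 y

theorem mem_num_succ (n : ℕ) (y : M S) : y ∈ (num (n + 1) : M S) ↔ y ∈ (num n : M S) ∨ y = num n :=
  (exists_succ (num n)).choose_spec.2 y

theorem smul_num (g : Γ) (n : ℕ) : g • (num n : M S) = num n := by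
  induction n with
  | zero => exact exists_empty.choose_spec.2.2 g
  | succ n ih =>
    refine ext ((isSet_smul_iff _ _).2 (isSet_num _)) (isSet_num _) fun z => ?_
    rw [mem_smul_iff, mem_num_succ, mem_num_succ, inv_smul_eq_iff, ih]
    have h2 : g⁻¹ • z ∈ (num n : M S) ↔ z ∈ (num n : M S) := by
      rw [← mem_smul_iff, ih]
    rw [h2]

theorem mem_num_iff (n : ℕ) (y : M S) : y ∈ (num n : M S) ↔ ∃ m < n, y = num m := by
  induction n with
  | zero => exact ⟨fun h => (not_mem_num_zero y h).elim, fun ⟨m, hm, _⟩ => (Nat.not_lt_zero m hm).elim⟩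
  | succ n ih =>
    rw [mem_num_succ, ih]
    constructor
    · rintro (⟨m, hm, h⟩ | h)
      · exact ⟨m, lt_trans hm (Nat.lt_succ_self n), h⟩
      · exact ⟨n, Nat.lt_succ_self n, h⟩
    · rintro ⟨m, hm, h⟩
      rcases Nat.lt_succ_iff_lt_or_eq.1 hm with h' | h'
      · exact Or.inl ⟨m, h', h⟩
      · right; rw [h, h']

theorem not_mem_self (x : M S) : x ∉ x := by
  induction x using M.induction with
  | h x ih => exact fun h => ih x h h

theorem num_inj {m n : ℕ} : (num m : M S) = num n ↔ m = n := by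
  refine ⟨fun h => ?_, fun h => h ▸ rfl⟩
  rcases lt_trichotomy m n with h' | h' | h'
  · have : (num m : M S) ∈ (num n : M S) := (mem_num_iff n _).2 ⟨m, h', rfl⟩
    rw [h] at this
    exact (not_mem_self _ this).elim
  · exact h'
  · have : (num n : M S) ∈ (num m : M S) := (mem_num_iff m _).2 ⟨n, h', rfl⟩
    rw [h] at this
    exact (not_mem_self _ this).elim

theorem num_mem_num {m n : ℕ} : (num m : M S) ∈ (num n : M S) ↔ m < n := by
  rw [mem_num_iff]
  exact ⟨fun ⟨k, hk, h⟩ => num_inj.1 h ▸ hk, fun h => ⟨m, h, rfl⟩⟩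

theorem exists_omega : ∃ w : M S, IsSet w ∧ (∀ y, y ∈ w ↔ ∃ n, y = num n) ∧
    ∀ g : Γ, g • w = w := by
  obtain ⟨w, h1, h2, -⟩ := exists_set (S := S) (C := {y | ∃ n, y = num n}) (s := S.ne.some)
    ((small_range (num : ℕ → M S)).mono fun y ⟨n, hn⟩ => ⟨n, hn.symm⟩)
    (by rintro σ - y ⟨n, rfl⟩; exact ⟨n, smul_num σ n⟩)
  refine ⟨w, h1, h2, fun g => ?_⟩
  refine ext ((isSet_smul_iff _ _).2 h1) h1 fun z => ?_
  rw [mem_smul_iff, h2, h2]
  constructor
  · rintro ⟨n, hn⟩; exact ⟨n, by rw [inv_smul_eq_iff, smul_num] at hn; exact hn⟩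
  · rintro ⟨n, hn⟩; exact ⟨n, by rw [inv_smul_eq_iff, smul_num]; exact hn⟩

/-- the set of natural numbers of the model -/
noncomputable def om : M S := exists_omega.choose

theorem isSet_om : IsSet (om : M S) := exists_omega.choose_spec.1

theorem mem_om {y : M S} : y ∈ (om : M S) ↔ ∃ n, y = num n := exists_omega.choose_spec.2.1 y

theorem smul_om (g : Γ) : g • (om : M S) = om := exists_omega.choose_spec.2.2 g

theorem num_mem_om (n : ℕ) : (num n : M S) ∈ (om : M S) := mem_om.2 ⟨n, rfl⟩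

/-- The permutation model is a model of ZFA. -/
theorem zfa (S : Sys Γ A) : ZFA (M S) where
  atoms_empty a ha x := not_mem_atom ha
  atoms_set := by
    obtain ⟨z, h1, h2, -⟩ := exists_set (S := S) (C := {x | Atom x}) (s := S.ne.some)
      ((small_range (at' : A → M S)).mono fun y hy => by
        obtain ⟨a, rfl⟩ := atom_iff.1 hy
        exact ⟨a, rfl⟩)
      (fun σ _ y hy => (atom_smul_iff σ y).2 hy)
    exact ⟨z, h1, h2⟩
  extensionality x y hx hy h := ext hx hy h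
  pairing x y := by
    obtain ⟨s, hs, ht⟩ := exists_supp₂ x y
    obtain ⟨z, h1, h2, -⟩ := exists_set (S := S) (C := {w | w = x ∨ w = y}) (s := s)
      ((small_range (fun b : Bool => cond b x y)).mono (by
        rintro w (rfl | rfl)
        · exact ⟨true, rfl⟩
        · exact ⟨false, rfl⟩))
      (by
        rintro σ hσ w (rfl | rfl)
        · exact Or.inl (hs σ hσ)
        · exact Or.inr (ht σ hσ))
    exact ⟨z, h1, h2⟩
  union x := by
    obtain ⟨s, hs⟩ := exists_supp x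
    obtain ⟨y, h1, h2, -⟩ := exists_set (S := S) (C := {z | ∃ w ∈ x, z ∈ w}) (s := s)
      (small_iUnion (small_elems x) (fun w => {z | z ∈ w}) fun w _ => small_elems w)
      (by
        rintro σ hσ z ⟨w, hw, hz⟩
        exact ⟨σ • w, (hs.mem_iff hσ w).2 hw, (smul_mem_smul_iff σ w z).2 hz⟩)
    exact ⟨y, h1, h2⟩
  powerset x := by
    obtain ⟨s, hs⟩ := exists_supp x
    obtain ⟨y, h1, h2, -⟩ := exists_set (S := S) (C := {z | IsSet z ∧ ∀ w ∈ z, w ∈ x}) (s := s)
      ((small_elems x).powerset)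
      (by
        rintro σ hσ z ⟨hz, hzx⟩
        refine ⟨(isSet_smul_iff σ z).2 hz, fun w hw => ?_⟩
        rw [mem_smul_iff] at hw
        have := (hs.mem_iff hσ _).2 (hzx _ hw)
        rwa [smul_inv_smul] at this)
    exact ⟨y, h1, h2⟩
  infinity := by
    refine ⟨om, ⟨num 0, num_mem_om 0, isSet_num 0, not_mem_num_zero⟩, ?_⟩
    intro y hy
    obtain ⟨n, rfl⟩ := mem_om.1 hy
    exact ⟨num (n + 1), num_mem_om _, isSet_num _, mem_num_succ n⟩
  regularity x := by
    rintro ⟨y, hy⟩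
    by_contra hcon
    push Not at hcon
    have : ∀ y : M S, y ∉ x := by
      intro y
      induction y using M.induction with
      | h y ih =>
        intro hy
        obtain ⟨z, hz, hzy⟩ := hcon y hy
        exact ih z hzy hz
    exact this y hy
  separation φ v x := by
    obtain ⟨s, hs⟩ := exists_supp x
    obtain ⟨t, ht⟩ := sat_supp φ v
    obtain ⟨r, hr1, hr2⟩ := S.dir s t
    obtain ⟨y, h1, h2, -⟩ := exists_set (S := S) (C := {z | z ∈ x ∧ Sat φ (cons z v)}) (s := r)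
      ((small_elems x).mono fun y hy => hy.1)
      (by
        rintro σ hσ z ⟨hz, hz'⟩
        exact ⟨(hs.mem_iff (hr1 hσ) z).2 hz, (ht σ (hr2 hσ) z).2 hz'⟩)
    exact ⟨y, h1, h2⟩
  replacement φ v x hx := by
    classical
    obtain ⟨s, hs⟩ := exists_supp x
    obtain ⟨t, ht⟩ := sat_supp₂ φ v
    obtain ⟨r, hr1, hr2⟩ := S.dir s t
    let F : M S → M S := fun y => if h : ∃ z, Sat φ (cons z (cons y v)) then h.choose else y
    have hsm : Small {z : M S | ∃ y ∈ x, Sat φ (cons z (cons y v))} := by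
      refine ((small_elems x).image F).mono ?_
      rintro z ⟨y, hy, hz⟩
      refine ⟨y, hy, ?_⟩
      have h : ∃ z, Sat φ (cons z (cons y v)) := ⟨z, hz⟩
      change (if h : ∃ z, Sat φ (cons z (cons y v)) then h.choose else y) = z
      rw [dif_pos h]
      exact (hx y hy).unique h.choose_spec hz
    obtain ⟨w, h1, h2, -⟩ := exists_set (S := S)
      (C := {z | ∃ y ∈ x, Sat φ (cons z (cons y v))}) (s := r) hsm
      (by
        rintro σ hσ z ⟨y, hy, hz⟩
        exact ⟨σ • y, (hs.mem_iff (hr1 hσ) y).2 hy, (ht σ (hr2 hσ) z y).2 hz⟩)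
    exact ⟨w, h1, h2⟩

end M

end Pool.Agent.FM
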