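import Pool.Agent.Lib_FM.ZFA

/-!
# Set-theoretic vocabulary in a structure for set theory with atoms

All quantifiers range over elements of the structure.
-/

set_option autoImplicit false

namespace Pool.Agent.FM

variable {M : Type*} [AtomStr M]

/-- `x ⊆ y` -/
def Subset (x y : M) : Prop := ∀ z ∈ x, z ∈ y

/-- `e` is the empty set -/
def EmptySet (e : M) : Prop := IsSet e ∧ ∀ z, z ∉ e

/-- `z = y ∪ {y}` -/
def Succ (y z : M) : Prop := ∀ u, u ∈ z ↔ u ∈ y ∨ u = y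

/-- `w` is the set `ω` of natural numbers: the least inductive set -/
def IsOmega (w : M) : Prop :=
  IsSet w ∧ ((∃ e ∈ w, EmptySet e) ∧ ∀ y ∈ w, ∃ z ∈ w, Succ y z) ∧
    ∀ x : M, (∃ e ∈ x, EmptySet e) → (∀ y ∈ x, ∃ z ∈ x, Succ y z) → Subset w x

/-- `p` is the (Kuratowski) ordered pair `(x, y) = {{x}, {x, y}}` -/
def Pair (x y p : M) : Prop :=
  ∃ a b : M, (∀ w, w ∈ a ↔ w = x) ∧ (∀ w, w ∈ b ↔ w = x ∨ w = y) ∧ ∀ w, w ∈ p ↔ w = a ∨ w = b

/-- `(x, y) ∈ f` -/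
def Rel (f x y : M) : Prop := ∃ p, Pair x y p ∧ p ∈ f

/-- `f` is a function with domain `A` -/
def FunOn (f A : M) : Prop :=
  IsSet f ∧ (∀ p ∈ f, ∃ x ∈ A, ∃ y, Pair x y p) ∧ ∀ x ∈ A, ∃! y, Rel f x y

/-- the relation `f` is injective -/
def Inj (f : M) : Prop := ∀ x x' y, Rel f x y → Rel f x' y → x = x'

/-- there is a bijection between `A` and `B` -/
def Equipotent (A B : M) : Prop :=
  ∃ f, FunOn f A ∧ Inj f ∧ (∀ x y, Rel f x y → y ∈ B) ∧ ∀ y ∈ B, ∃ x, Rel f x y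

/-- the set `X` is finite: equipotent to some `n ∈ ω` (here `w` is `ω`) -/
def FiniteSet (w X : M) : Prop := ∃ n ∈ w, Equipotent n X

end Pool.Agent.FM
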