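import Pool.Agent.Lib_FM.Model
import Pool.Agent.Lib_FM.Vocab

/-!
# Set-theoretic notions in permutation models, computed externally
-/

set_option autoImplicit false

namespace Pool.Agent.FM

variable {Γ A : Type} [Group Γ] [MulAction Γ A] {S : Sys Γ A}

namespace M

/-- unordered pair -/
noncomputable def upair (x y : M S) : M S := ((zfa S).pairing x y).choose

theorem isSet_upair (x y : M S) : IsSet (upair x y) := ((zfa S).pairing x y).choose_spec.1

theorem mem_upair {x y w : M S} : w ∈ upair x y ↔ w = x ∨ w = y :=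
  ((zfa S).pairing x y).choose_spec.2 w

/-- singleton -/
noncomputable def sing (x : M S) : M S := upair x x

theorem isSet_sing (x : M S) : IsSet (sing x) := isSet_upair x x

theorem mem_sing {x w : M S} : w ∈ sing x ↔ w = x := by rw [sing, mem_upair, or_self]

/-- ordered pair -/
noncomputable def opair (x y : M S) : M S := upair (sing x) (upair x y)

theorem pair_iff {x y p : M S} : Pair x y p ↔ p = opair x y := by
  constructor
  · rintro ⟨a, b, ha, hb, hp⟩
    have h1 : a = sing x := ext (isSet_of_mem ((ha x).2 rfl)) (isSet_sing x)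
      fun z => by rw [ha, mem_sing]
    have h2 : b = upair x y := ext (isSet_of_mem ((hb x).2 (Or.inl rfl))) (isSet_upair x y)
      fun z => by rw [hb, mem_upair]
    rw [h1, h2] at hp
    exact ext (isSet_of_mem ((hp _).2 (Or.inl rfl))) (isSet_upair _ _)
      fun z => by rw [hp, opair, mem_upair]
  · rintro rfl
    exact ⟨sing x, upair x y, fun w => mem_sing, fun w => mem_upair, fun w => mem_upair⟩

theorem sing_inj {x y : M S} (h : sing x = sing y) : x = y := by
  have : x ∈ sing y := h ▸ mem_sing.2 rfl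
  exact mem_sing.1 this

theorem sing_eq_upair {x y z : M S} (h : sing x = upair y z) : x = y ∧ x = z := by
  have h1 : y ∈ sing x := h ▸ mem_upair.2 (Or.inl rfl)
  have h2 : z ∈ sing x := h ▸ mem_upair.2 (Or.inr rfl)
  exact ⟨(mem_sing.1 h1).symm, (mem_sing.1 h2).symm⟩

theorem opair_inj {x y x' y' : M S} : opair x y = opair x' y' ↔ x = x' ∧ y = y' := by
  refine ⟨fun h => ?_, by rintro ⟨rfl, rfl⟩; rfl⟩
  have h1 : sing x ∈ opair x' y' := h ▸ mem_upair.2 (Or.inl rfl)
  have hx : x = x' := by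
    rcases mem_upair.1 h1 with h | h
    · exact sing_inj h
    · exact (sing_eq_upair h).1
  subst hx
  refine ⟨rfl, ?_⟩
  have h2 : upair x y ∈ opair x y' := h ▸ mem_upair.2 (Or.inr rfl)
  have h3 : upair x y' ∈ opair x y := h ▸ mem_upair.2 (Or.inr rfl)
  rcases mem_upair.1 h2 with h2 | h2
  · have h4 := sing_eq_upair h2.symm
    rcases mem_upair.1 h3 with h3 | h3
    · have h5 := sing_eq_upair h3.symm
      rw [← h4.2, ← h5.2]
    · have h6 : y' ∈ upair x y := h3 ▸ mem_upair.2 (Or.inr rfl)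
      rcases mem_upair.1 h6 with h6 | h6
      · rw [h6, ← h4.2]
      · exact h6.symm
  · have h6 : y' ∈ upair x y := h2 ▸ mem_upair.2 (Or.inr rfl)
    have h7 : y ∈ upair x y' := h2 ▸ mem_upair.2 (Or.inr rfl)
    rcases mem_upair.1 h6 with h6 | h6
    · rcases mem_upair.1 h7 with h7 | h7
      · rw [h6, h7]
      · exact h7
    · exact h6.symm

theorem smul_upair (g : Γ) (x y : M S) : g • upair x y = upair (g • x) (g • y) := by
  refine ext ((isSet_smul_iff _ _).2 (isSet_upair _ _)) (isSet_upair _ _) fun z => ?_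
  rw [mem_smul_iff, mem_upair, mem_upair, inv_smul_eq_iff, inv_smul_eq_iff]

theorem smul_opair (g : Γ) (x y : M S) : g • opair x y = opair (g • x) (g • y) := by
  rw [opair, smul_upair, sing, smul_upair, smul_upair]
  rfl

theorem rel_iff {f x y : M S} : Rel f x y ↔ opair x y ∈ f := by
  constructor
  · rintro ⟨p, hp, h⟩
    rwa [pair_iff.1 hp] at h
  · intro h
    exact ⟨_, pair_iff.2 rfl, h⟩

theorem rel_smul_iff {f : M S} {s : S.ι} (h : Supp S s f) {σ : Γ} (hσ : σ ∈ S.H s) (x y : M S) :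
    Rel f (σ • x) (σ • y) ↔ Rel f x y := by
  rw [rel_iff, rel_iff, ← smul_opair, h.mem_iff hσ]

/-- small symmetric relations are sets of pairs -/
theorem exists_rel {R : M S → M S → Prop} {C D : Set (M S)} (hC : Small C) (hD : Small D)
    (hR : ∀ x y, R x y → x ∈ C ∧ y ∈ D) {s : S.ι}
    (hs : ∀ σ ∈ S.H s, ∀ x y, R x y → R (σ • x) (σ • y)) :
    ∃ f : M S, IsSet f ∧ (∀ p, p ∈ f ↔ ∃ x y, R x y ∧ p = opair x y) ∧
      (∀ x y, Rel f x y ↔ R x y) ∧ Supp S s f := by
  obtain ⟨f, h1, h2, h3⟩ := exists_set (S := S) (C := {p | ∃ x y, R x y ∧ p = opair x y}) (s := s)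
    ((hC.image2 hD opair).mono (by
      rintro p ⟨x, y, hxy, rfl⟩
      exact ⟨x, (hR x y hxy).1, y, (hR x y hxy).2, rfl⟩))
    (by
      rintro σ hσ p ⟨x, y, hxy, rfl⟩
      exact ⟨σ • x, σ • y, hs σ hσ x y hxy, smul_opair σ x y⟩)
  refine ⟨f, h1, h2, fun x y => ?_, h3⟩
  rw [rel_iff, h2]
  constructor
  · rintro ⟨x', y', hxy, h⟩
    obtain ⟨rfl, rfl⟩ := opair_inj.1 h
    exact hxy
  · intro h
    exact ⟨x, y, h, rfl⟩

/-- small symmetric functions are functions of the model -/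
theorem exists_fun {X : M S} (F : M S → M S) {D : Set (M S)} (hD : Small D)
    (hF : ∀ x ∈ X, F x ∈ D) {s : S.ι} (hX : Supp S s X)
    (hs : ∀ σ ∈ S.H s, ∀ x ∈ X, F (σ • x) = σ • F x) :
    ∃ f : M S, FunOn f X ∧ (∀ x y, Rel f x y ↔ x ∈ X ∧ y = F x) ∧ Supp S s f := by
  obtain ⟨f, h1, h2, h3, h4⟩ := exists_rel (S := S) (R := fun x y => x ∈ X ∧ y = F x)
    (small_elems X) hD (by rintro x y ⟨hx, rfl⟩; exact ⟨hx, hF x hx⟩) (s := s)
    (by
      rintro σ hσ x y ⟨hx, rfl⟩
      exact ⟨(hX.mem_iff hσ x).2 hx, (hs σ hσ x hx).symm⟩)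
  refine ⟨f, ⟨h1, ?_, ?_⟩, h3, h4⟩
  · intro p hp
    obtain ⟨x, y, ⟨hx, -⟩, rfl⟩ := (h2 p).1 hp
    exact ⟨x, hx, y, pair_iff.2 rfl⟩
  · intro x hx
    refine ⟨F x, (h3 _ _).2 ⟨hx, rfl⟩, ?_⟩
    intro y hy
    exact ((h3 _ _).1 hy).2

instance : Nonempty (M S) := ⟨num 0⟩

/-- finite subsets of the model are symmetric -/
theorem exists_supp_finite {C : Set (M S)} (hC : C.Finite) : ∃ s, ∀ y ∈ C, Supp S s y := by
  induction C, hC using Set.Finite.induction_on with
  | empty => exact ⟨S.ne.some, fun y hy => hy.elim⟩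
  | @insert a C _ _ ih =>
    obtain ⟨s, hs⟩ := ih
    obtain ⟨t, ht⟩ := exists_supp a
    obtain ⟨r, h1, h2⟩ := S.dir s t
    refine ⟨r, ?_⟩
    rintro y (rfl | hy)
    · exact ht.mono h2
    · exact (hs y hy).mono h1

theorem Small.of_finite {C : Set (M S)} (hC : C.Finite) : Small C := by
  obtain ⟨n, f, hf⟩ := hC.fin_embedding
  exact ⟨Fin n, f, fun y hy => by
    rw [← hf] at hy
    obtain ⟨k, hk⟩ := hy
    exact ⟨k, hk.symm⟩⟩

/-- finite classes are sets -/
theorem exists_finite {C : Set (M S)} (hC : C.Finite) : ∃ x : M S, IsSet x ∧ ∀ y, y ∈ x ↔ y ∈ C := by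
  obtain ⟨s, hs⟩ := exists_supp_finite hC
  obtain ⟨x, h1, h2, -⟩ := exists_set (S := S) (Small.of_finite hC) (s := s)
    (fun σ hσ y hy => by rw [hs y hy σ hσ]; exact hy)
  exact ⟨x, h1, h2⟩

/-- the elements of `x` -/
def el (x : M S) : Set (M S) := {y | y ∈ x}

theorem mem_el {x y : M S} : y ∈ el x ↔ y ∈ x := Iff.rfl

theorem el_inj {x y : M S} (hx : IsSet x) (hy : IsSet y) (h : el x = el y) : x = y :=
  ext hx hy fun z => by rw [← mem_el, h, mem_el]

theorem el_num (n : ℕ) : el (num n : M S) = num '' (Set.Iio n) := by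
  ext y
  rw [mem_el, mem_num_iff]
  constructor
  · rintro ⟨m, hm, rfl⟩; exact ⟨m, hm, rfl⟩
  · rintro ⟨m, hm, rfl⟩; exact ⟨m, hm, rfl⟩

theorem finite_el_num (n : ℕ) : (el (num n : M S)).Finite := by
  rw [el_num]
  exact (Set.finite_Iio n).image _

theorem ncard_el_num (n : ℕ) : (el (num n : M S)).ncard = n := by
  rw [el_num, Set.ncard_image_of_injective _ (fun a b h => num_inj.1 h)]
  rw [Set.ncard_eq_toFinset_card']
  simp

theorem encard_eq_of_equipotent {x y : M S} (h : Equipotent x y) : (el x).encard = (el y).encard := by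
  obtain ⟨f, hf, hinj, hran, hsurj⟩ := h
  have hf1 : ∀ a : {a // a ∈ x}, ∃! b, Rel f a.1 b := fun a => hf.2.2 a.1 a.2
  let F : {a // a ∈ x} → {b // b ∈ y} := fun a =>
    ⟨(hf1 a).choose, hran _ _ (hf1 a).choose_spec.1⟩
  have hF : ∀ a : {a // a ∈ x}, Rel f a.1 (F a).1 := fun a => (hf1 a).choose_spec.1
  have hbij : Function.Bijective F := by
    constructor
    · intro a b hab
      have h1 := hF a
      rw [hab] at h1
      exact Subtype.ext (hinj _ _ _ h1 (hF b))
    · rintro ⟨b, hb⟩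
      obtain ⟨a, ha⟩ := hsurj b hb
      have hax : a ∈ x := by
        obtain ⟨p, hp, hpf⟩ := ha
        obtain ⟨a', ha', b', hp'⟩ := hf.2.1 p hpf
        have := opair_inj.1 ((pair_iff.1 hp).symm.trans (pair_iff.1 hp'))
        rw [this.1]
        exact ha'
      refine ⟨⟨a, hax⟩, Subtype.ext ?_⟩
      exact (hf1 ⟨a, hax⟩).unique (hF ⟨a, hax⟩) ha
  exact Set.encard_congr (Equiv.ofBijective F hbij)

theorem finite_iff_of_equipotent {x y : M S} (h : Equipotent x y) :
    (el x).Finite ↔ (el y).Finite := by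
  rw [← Set.encard_lt_top_iff, ← Set.encard_lt_top_iff, encard_eq_of_equipotent h]

theorem ncard_eq_of_equipotent {x y : M S} (h : Equipotent x y) : (el x).ncard = (el y).ncard := by
  rw [Set.ncard, Set.ncard, encard_eq_of_equipotent h]

theorem equipotent_of_ncard {x y : M S} (hx : (el x).Finite) (hy : (el y).Finite)
    (h : (el x).ncard = (el y).ncard) : Equipotent x y := by
  classical
  have h' : (el x).encard = (el y).encard := by
    rw [← hx.cast_ncard_eq, ← hy.cast_ncard_eq, h]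
  obtain ⟨F, hFm, hFi⟩ := hx.exists_bijOn_of_encard_eq h'
  obtain ⟨s, hs⟩ := exists_supp_finite (hx.union hy)
  obtain ⟨t, ht⟩ := exists_supp x
  obtain ⟨r, hr1, hr2⟩ := S.dir s t
  have hxs : ∀ σ ∈ S.H r, ∀ a ∈ x, σ • a = a := fun σ hσ a ha => hs a (Or.inl ha) σ (hr1 hσ)
  have hys : ∀ σ ∈ S.H r, ∀ a ∈ y, σ • a = a := fun σ hσ a ha => hs a (Or.inr ha) σ (hr1 hσ)
  obtain ⟨f, h1, h2, -⟩ := exists_fun (S := S) (X := x) F (small_elems y) (fun a ha => hFm ha)
    (s := r) (ht.mono hr2)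
    (fun σ hσ a ha => by rw [hxs σ hσ a ha, hys σ hσ _ (hFm ha)])
  refine ⟨f, h1, ?_, ?_, ?_⟩
  · intro a a' b hab hab'
    rw [h2] at hab hab'
    exact hFi.1 hab.1 hab'.1 (hab.2.symm.trans hab'.2)
  · intro a b hab
    rw [h2] at hab
    rw [hab.2]
    exact hFm hab.1
  · intro b hb
    obtain ⟨a, ha, hab⟩ := hFi.2 hb
    exact ⟨a, (h2 _ _).2 ⟨ha, hab.symm⟩⟩

theorem finiteSet_iff {x : M S} : FiniteSet om x ↔ (el x).Finite := by
  constructor
  · rintro ⟨n, hn, h⟩
    obtain ⟨n, rfl⟩ := mem_om.1 hn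
    exact (finite_iff_of_equipotent h).1 (finite_el_num n)
  · intro h
    exact ⟨num (el x).ncard, num_mem_om _, equipotent_of_ncard (finite_el_num _) h
      (ncard_el_num _)⟩

theorem emptySet_iff {e : M S} : EmptySet e ↔ e = num 0 := by
  constructor
  · rintro ⟨h1, h2⟩
    exact ext h1 (isSet_num 0) fun z => ⟨fun h => (h2 z h).elim, fun h => (not_mem_num_zero z h).elim⟩
  · rintro rfl
    exact ⟨isSet_num 0, not_mem_num_zero⟩

theorem succ_num_iff {n : ℕ} {z : M S} : Succ (num n) z ↔ z = num (n + 1) := by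
  constructor
  · intro h
    exact ext (isSet_of_mem ((h _).2 (Or.inr rfl))) (isSet_num _) fun u => by
      rw [h, mem_num_succ]
  · rintro rfl
    exact mem_num_succ n

theorem isOmega_iff {w : M S} : IsOmega w ↔ w = om := by
  have hind : ∀ x : M S, (∃ e ∈ x, EmptySet e) → (∀ y ∈ x, ∃ z ∈ x, Succ y z) → Subset om x := by
    rintro x ⟨e, he, he'⟩ hx y hy
    obtain ⟨n, rfl⟩ := mem_om.1 hy
    induction n with
    | zero => rw [← emptySet_iff.1 he']; exact he
    | succ n ih =>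
      obtain ⟨z, hz, hz'⟩ := hx _ (ih (num_mem_om n))
      rw [← succ_num_iff.1 hz']
      exact hz
  have hom : (∃ e ∈ (om : M S), EmptySet e) ∧ ∀ y ∈ (om : M S), ∃ z ∈ (om : M S), Succ y z := by
    refine ⟨⟨num 0, num_mem_om 0, emptySet_iff.2 rfl⟩, fun y hy => ?_⟩
    obtain ⟨n, rfl⟩ := mem_om.1 hy
    exact ⟨num (n + 1), num_mem_om _, succ_num_iff.2 rfl⟩
  constructor
  · rintro ⟨h0, ⟨h1, h2⟩, h3⟩
    exact ext h0 isSet_om fun z => ⟨fun hz => h3 om hom.1 hom.2 z hz, fun hz => hind w h1 h2 z hz⟩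
  · rintro rfl
    exact ⟨isSet_om, hom, hind⟩

end M

end Pool.Agent.FM
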