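import Mathlib

/-!
# The universe of sets over a type of atoms, with a group action

`V A` is the cumulative hierarchy of (small) sets over the type `A` of atoms.
-/

set_option autoImplicit false

namespace Pool.Agent.FM

/-- Codes of sets over a type of atoms. -/
inductive Pre (A : Type) : Type 1
  | atom (a : A) : Pre A
  | mk (ι : Type) (f : ι → Pre A) : Pre A

namespace Pre

variable {A : Type}

/-- extensional equivalence of codes -/
def Eqv : Pre A → Pre A → Prop
  | .atom a, .atom b => a = b
  | .mk _ f, .mk _ g => (∀ i, ∃ j, Eqv (f i) (g j)) ∧ (∀ j, ∃ i, Eqv (f i) (g j))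
  | .atom _, .mk _ _ => False
  | .mk _ _, .atom _ => False

theorem Eqv.refl : ∀ x : Pre A, Eqv x x
  | .atom _ => rfl
  | .mk _ f => ⟨fun i => ⟨i, Eqv.refl (f i)⟩, fun i => ⟨i, Eqv.refl (f i)⟩⟩

theorem Eqv.symm : ∀ {x y : Pre A}, Eqv x y → Eqv y x
  | .atom _, .atom _, h => Eq.symm h
  | .mk _ _, .mk _ _, ⟨h1, h2⟩ =>
    ⟨fun j => (h2 j).imp fun _ h => Eqv.symm h, fun i => (h1 i).imp fun _ h => Eqv.symm h⟩
  | .atom _, .mk _ _, h => h
  | .mk _ _, .atom _, h => h

theorem Eqv.trans : ∀ {x y z : Pre A}, Eqv x y → Eqv y z → Eqv x z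
  | .atom _, .atom _, .atom _, h, h' => Eq.trans h h'
  | .mk _ _, .mk _ _, .mk _ _, ⟨h1, h2⟩, ⟨k1, k2⟩ =>
    ⟨fun i => by
      obtain ⟨j, hj⟩ := h1 i
      obtain ⟨k, hk⟩ := k1 j
      exact ⟨k, Eqv.trans hj hk⟩,
     fun k => by
      obtain ⟨j, hj⟩ := k2 k
      obtain ⟨i, hi⟩ := h2 j
      exact ⟨i, Eqv.trans hi hj⟩⟩
  | .atom _, .mk _ _, _, h, _ => h.elim
  | .mk _ _, .atom _, _, h, _ => h.elim
  | .atom _, .atom _, .mk _ _, _, h => h.elim
  | .mk _ _, .mk _ _, .atom _, _, h => h.elim

instance setoid (A : Type) : Setoid (Pre A) := ⟨Eqv, Eqv.refl, Eqv.symm, Eqv.trans⟩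

/-- membership of codes -/
def Mem (x : Pre A) : Pre A → Prop
  | .atom _ => False
  | .mk _ f => ∃ i, Eqv x (f i)

theorem Mem.congr {x x' y y' : Pre A} (hx : Eqv x x') (hy : Eqv y y') (h : Mem x y) :
    Mem x' y' := by
  cases y with
  | atom a => exact h.elim
  | mk ι f =>
    cases y' with
    | atom b => exact hy.elim
    | mk κ g =>
      obtain ⟨i, hi⟩ := h
      obtain ⟨j, hj⟩ := hy.1 i
      exact ⟨j, hx.symm.trans (hi.trans hj)⟩

/-- renaming of atoms -/
def map {B : Type} (r : A → B) : Pre A → Pre B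
  | .atom a => .atom (r a)
  | .mk ι f => .mk ι fun i => map r (f i)

theorem map_eqv {B : Type} (r : A → B) : ∀ {x y : Pre A}, Eqv x y → Eqv (map r x) (map r y)
  | .atom _, .atom _, h => congrArg r h
  | .mk _ _, .mk _ _, ⟨h1, h2⟩ =>
    ⟨fun i => (h1 i).imp fun _ h => map_eqv r h, fun j => (h2 j).imp fun _ h => map_eqv r h⟩
  | .atom _, .mk _ _, h => h
  | .mk _ _, .atom _, h => h

theorem map_id : ∀ x : Pre A, map (fun a => a) x = x
  | .atom _ => rfl
  | .mk ι f => congrArg (Pre.mk ι) (funext fun i => map_id (f i))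

theorem map_map {B C : Type} (r : A → B) (s : B → C) :
    ∀ x : Pre A, map s (map r x) = map (fun a => s (r a)) x
  | .atom _ => rfl
  | .mk ι f => congrArg (Pre.mk ι) (funext fun i => map_map r s (f i))

end Pre

/-- The universe of sets over the atoms `A`. -/
def V (A : Type) : Type 1 := Quotient (Pre.setoid A)

namespace V

variable {A : Type}

/-- an atom as an element of the universe -/
def atom (a : A) : V A := Quotient.mk _ (Pre.atom a)

instance : Membership (V A) (V A) where
  mem y x := Quotient.liftOn₂ x y Pre.Mem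
    (fun _ _ _ _ hx hy => propext ⟨fun h => Pre.Mem.congr hx hy h,
      fun h => Pre.Mem.congr (Pre.Eqv.symm hx) (Pre.Eqv.symm hy) h⟩)

/-- the set with given elements -/
noncomputable def mk {ι : Type} (f : ι → V A) : V A :=
  Quotient.mk _ (Pre.mk ι fun i => (f i).out)

theorem mem_mk {ι : Type} (f : ι → V A) (y : V A) : y ∈ mk f ↔ ∃ i, y = f i := by
  induction y using Quotient.inductionOn with
  | h y =>
    constructor
    · rintro ⟨i, hi⟩
      refine ⟨i, ?_⟩
      rw [← Quotient.out_eq (f i)]
      exact Quotient.sound hi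
    · rintro ⟨i, hi⟩
      refine ⟨i, ?_⟩
      rw [← Quotient.out_eq (f i)] at hi
      exact Quotient.exact hi

theorem not_mem_atom (a : A) (y : V A) : y ∉ (atom a : V A) := by
  induction y using Quotient.inductionOn with
  | h y => intro h; exact h

theorem atom_inj {a b : A} (h : (atom a : V A) = atom b) : a = b := Quotient.exact h

theorem mk_ne_atom {ι : Type} (f : ι → V A) (a : A) : mk f ≠ atom a := by
  intro h
  exact Quotient.exact h

/-- `x` is an atom -/
def IsAtom (x : V A) : Prop := ∃ a, x = atom a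

theorem isAtom_atom (a : A) : IsAtom (atom a : V A) := ⟨a, rfl⟩

theorem not_isAtom_mk {ι : Type} (f : ι → V A) : ¬ IsAtom (mk f) := fun ⟨a, h⟩ => mk_ne_atom f a h

theorem eq_mk_or_atom (x : V A) : IsAtom x ∨ ∃ (ι : Type) (f : ι → V A), x = mk f := by
  induction x using Quotient.inductionOn with
  | h x =>
    cases x with
    | atom a => exact Or.inl ⟨a, rfl⟩
    | mk ι f =>
      refine Or.inr ⟨ι, fun i => Quotient.mk _ (f i), ?_⟩
      refine Quotient.sound ⟨fun i => ⟨i, ?_⟩, fun i => ⟨i, ?_⟩⟩
      · exact Pre.Eqv.symm (Quotient.exact (Quotient.out_eq (Quotient.mk (Pre.setoid A) (f i))))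
      · exact Pre.Eqv.symm (Quotient.exact (Quotient.out_eq (Quotient.mk (Pre.setoid A) (f i))))

/-- the elements of any `x` form a small family -/
theorem exists_small (x : V A) : ∃ (ι : Type) (f : ι → V A), ∀ y, y ∈ x ↔ ∃ i, y = f i := by
  rcases eq_mk_or_atom x with ⟨a, rfl⟩ | ⟨ι, f, rfl⟩
  · exact ⟨Empty, Empty.elim, fun y => ⟨fun h => (not_mem_atom a y h).elim, fun ⟨i, _⟩ => i.elim⟩⟩
  · exact ⟨ι, f, mem_mk f⟩

theorem ext {x y : V A} (hx : ¬ IsAtom x) (hy : ¬ IsAtom y) (h : ∀ z, z ∈ x ↔ z ∈ y) : x = y := by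
  induction x using Quotient.inductionOn with
  | h x =>
    induction y using Quotient.inductionOn with
    | h y =>
      cases x with
      | atom a => exact (hx ⟨a, rfl⟩).elim
      | mk ι f =>
        cases y with
        | atom a => exact (hy ⟨a, rfl⟩).elim
        | mk κ g =>
          refine Quotient.sound ⟨fun i => ?_, fun j => ?_⟩
          · exact (h (Quotient.mk _ (f i))).1 ⟨i, Pre.Eqv.refl _⟩
          · obtain ⟨i, hi⟩ := (h (Quotient.mk _ (g j))).2 ⟨j, Pre.Eqv.refl _⟩
            exact ⟨i, Pre.Eqv.symm hi⟩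

/-- induction on membership -/
theorem induction {p : V A → Prop} (h : ∀ x, (∀ y ∈ x, p y) → p x) (x : V A) : p x := by
  have key : ∀ x : Pre A, p (Quotient.mk _ x) := by
    intro x
    induction x with
    | atom a => exact h _ fun y hy => (not_mem_atom a y hy).elim
    | mk ι f ih =>
      refine h _ fun y hy => ?_
      induction y using Quotient.inductionOn with
      | h y =>
        obtain ⟨i, hi⟩ := hy
        have : (Quotient.mk (Pre.setoid A) y) = Quotient.mk _ (f i) := Quotient.sound hi
        rw [this]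
        exact ih i
  induction x using Quotient.inductionOn with
  | h x => exact key x

section action

variable {Γ : Type} [Group Γ] [MulAction Γ A]

/-- the action of a group on the universe -/
def act (g : Γ) : V A → V A :=
  Quotient.map (Pre.map fun a => g • a) fun _ _ h => Pre.map_eqv _ h

noncomputable instance : MulAction Γ (V A) where
  smul := act
  one_smul x := by
    induction x using Quotient.inductionOn with
    | h x =>
      refine congrArg (Quotient.mk _) ?_
      have : (fun a : A => (1 : Γ) • a) = fun a => a := funext fun a => one_smul _ a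
      change Pre.map (fun a => (1 : Γ) • a) x = x
      rw [this, Pre.map_id]
  mul_smul g h x := by
    induction x using Quotient.inductionOn with
    | h x =>
      refine congrArg (Quotient.mk _) ?_
      change Pre.map (fun a => (g * h) • a) x =
        Pre.map (fun a => g • a) (Pre.map (fun a => h • a) x)
      rw [Pre.map_map]
      exact congrArg (fun r => Pre.map r x) (funext fun a => mul_smul g h a)

theorem smul_atom (g : Γ) (a : A) : g • (atom a : V A) = atom (g • a) := rfl

theorem smul_mem_smul {g : Γ} {x y : V A} (h : y ∈ x) : g • y ∈ g • x := by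
  induction x using Quotient.inductionOn with
  | h x =>
    induction y using Quotient.inductionOn with
    | h y =>
      cases x with
      | atom a => exact h.elim
      | mk ι f =>
        obtain ⟨i, hi⟩ := h
        exact ⟨i, Pre.map_eqv _ hi⟩

theorem smul_mem_smul_iff (g : Γ) (x y : V A) : g • y ∈ g • x ↔ y ∈ x := by
  refine ⟨fun h => ?_, smul_mem_smul⟩
  have := smul_mem_smul (g := g⁻¹) h
  rwa [inv_smul_smul, inv_smul_smul] at this

theorem mem_smul_iff (g : Γ) (x y : V A) : y ∈ g • x ↔ g⁻¹ • y ∈ x := by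
  rw [← smul_mem_smul_iff g x, smul_inv_smul]

theorem isAtom_smul_iff (g : Γ) (x : V A) : IsAtom (g • x) ↔ IsAtom x := by
  constructor
  · rintro ⟨a, h⟩
    exact ⟨g⁻¹ • a, by rw [← smul_atom, ← h, inv_smul_smul]⟩
  · rintro ⟨a, rfl⟩
    exact ⟨g • a, rfl⟩

end action

end V

end Pool.Agent.FM
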